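import Mathlib
import Pool.Agent.Q18.CharInt
import Pool.Agent.Q18.HomCount

namespace Pool.Agent.Results.MP_405423_al.QuotientSemiRational

open Q18

/-- `N_{w,G}(g)`: the number of `r`-tuples of elements of `G` on which the word `w` takes the
value `g`. -/
noncomputable def wordCount {r : ℕ} (w : FreeGroup (Fin r)) (G : Type) [Group G] (g : G) : ℕ :=
  Nat.card {x : Fin r → G // FreeGroup.lift x w = g}

/-- `χ` is the character of an irreducible complex representation of `G`. -/
def IsIrrChar {G : Type} [Group G] (χ : G → ℂ) : Prop :=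
  ∃ (n : ℕ) (ρ : Representation ℂ G (Fin n → ℂ)), ρ.IsIrreducible ∧ ρ.character = χ

/-- The inner product `⟨N_{w,G}, χ⟩ = |G|⁻¹ ∑_g N_{w,G}(g) conj (χ(g))`. -/
noncomputable def coeff {r : ℕ} (w : FreeGroup (Fin r)) (G : Type) [Group G] (χ : G → ℂ) : ℂ :=
  (Nat.card G : ℂ)⁻¹ * ∑ᶠ g : G, (wordCount w G g : ℂ) * (starRingEnd ℂ) (χ g)

/-- A finite group is semi-rational if for every `r ≥ 1` and every word `w` in `r` letters
all the coefficients `⟨N_{w,G}, χ⟩`, `χ` irreducible, are integers. -/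
def SemiRational (G : Type) [Group G] : Prop :=
  ∀ r : ℕ, 1 ≤ r → ∀ w : FreeGroup (Fin r), ∀ χ : G → ℂ, IsIrrChar χ → ∃ n : ℤ, coeff w G χ = n

section

variable {r : ℕ} (w : FreeGroup (Fin r)) {G : Type} [Group G] [Finite G]

theorem coeff_eq [Fintype (Fin r → G)] (χ : G → ℂ) : coeff w G χ =
    (Nat.card G : ℂ)⁻¹ * ∑ x : Fin r → G, (starRingEnd ℂ) (χ (FreeGroup.lift x w)) := by
  classical
  have : Fintype G := Fintype.ofFinite G
  unfold coeff
  rw [finsum_eq_sum_of_fintype]
  congr 1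
  rw [← Finset.sum_fiberwise (s := Finset.univ) (g := fun x : Fin r → G => FreeGroup.lift x w)]
  refine Finset.sum_congr rfl fun g _ => ?_
  rw [Finset.sum_congr rfl (g := fun _ => (starRingEnd ℂ) (χ g))
    (fun x hx => by rw [(Finset.mem_filter.1 hx).2])]
  rw [Finset.sum_const, nsmul_eq_mul]
  congr 2
  unfold wordCount
  rw [Nat.card_eq_fintype_card, Fintype.card_subtype]

theorem coeff_quot (N : Subgroup G) [N.Normal] (ψ : G ⧸ N → ℂ) :
    coeff w G (fun g => ψ (QuotientGroup.mk g)) * Nat.card N =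
      (Nat.card N : ℂ) ^ r * coeff w (G ⧸ N) ψ := by
  classical
  have : Fintype G := Fintype.ofFinite G
  have : Fintype (G ⧸ N) := Fintype.ofFinite _
  have : Fintype N := Fintype.ofFinite _
  rw [coeff_eq, coeff_eq]
  have hcard : (Nat.card G : ℂ) = Nat.card (G ⧸ N) * Nat.card N := by
    rw [Subgroup.card_eq_card_quotient_mul_card_subgroup N]; push_cast; ring
  have hN : (Nat.card N : ℂ) ≠ 0 := by exact_mod_cast Nat.card_pos.ne'
  have hQ : (Nat.card (G ⧸ N) : ℂ) ≠ 0 := by exact_mod_cast Nat.card_pos.ne'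
  have hsum : ∑ x : Fin r → G, (starRingEnd ℂ) (ψ (QuotientGroup.mk (FreeGroup.lift x w))) =
      (Nat.card N : ℂ) ^ r *
        ∑ y : Fin r → G ⧸ N, (starRingEnd ℂ) (ψ (FreeGroup.lift y w)) := by
    let e : (Fin r → G) ≃ (Fin r → G ⧸ N) × (Fin r → N) :=
      (Equiv.arrowCongr (Equiv.refl _) (Subgroup.groupEquivQuotientProdSubgroup (s := N))).trans
        (Equiv.arrowProdEquivProdArrow _ _ _)
    have he : ∀ x, (e x).1 = fun i => (QuotientGroup.mk (x i) : G ⧸ N) := by
      intro x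
      funext i
      change ((Subgroup.groupEquivQuotientProdSubgroup (s := N)) (x i)).1 = _
      rfl
    have hl : ∀ x : Fin r → G, (QuotientGroup.mk (FreeGroup.lift x w) : G ⧸ N) =
        FreeGroup.lift (e x).1 w := by
      intro x
      rw [he]
      have : (QuotientGroup.mk' N).comp (FreeGroup.lift x) =
          FreeGroup.lift (fun i => (QuotientGroup.mk (x i) : G ⧸ N)) := by
        ext i
        simp
      exact DFunLike.congr_fun this w
    rw [Fintype.sum_equiv e _ (fun p : (Fin r → G ⧸ N) × (Fin r → N) =>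
      (starRingEnd ℂ) (ψ (FreeGroup.lift p.1 w))) (fun x => by rw [hl])]
    rw [Fintype.sum_prod_type]
    simp only [Finset.sum_const, Finset.card_univ]
    rw [Finset.mul_sum]
    refine Finset.sum_congr rfl fun y _ => ?_
    rw [nsmul_eq_mul]
    congr 1
    rw [Fintype.card_fun, Fintype.card_fin, Nat.card_eq_fintype_card]
    push_cast; ring
  rw [hsum, hcard]
  field_simp

/-- existence of a surjection onto `ℤ` killing `w`, when there are at least two letters -/
theorem exists_delta (hr : 2 ≤ r) : ∃ (δ : FreeGroup (Fin r) →* Multiplicative ℤ)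
    (t : FreeGroup (Fin r)), δ t = Multiplicative.ofAdd 1 ∧ w ∈ δ.ker := by
  let i0 : Fin r := ⟨0, by omega⟩
  let i1 : Fin r := ⟨1, by omega⟩
  have h01 : i0 ≠ i1 := by intro h; simp [i0, i1] at h
  let e0 : FreeGroup (Fin r) →* Multiplicative ℤ :=
    FreeGroup.lift (fun i => if i = i0 then Multiplicative.ofAdd 1 else 1)
  let e1 : FreeGroup (Fin r) →* Multiplicative ℤ :=
    FreeGroup.lift (fun i => if i = i1 then Multiplicative.ofAdd 1 else 1)
  obtain ⟨p, q, hpq, hw⟩ : ∃ p q : ℤ, IsCoprime p q ∧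
      p * Multiplicative.toAdd (e0 w) + q * Multiplicative.toAdd (e1 w) = 0 := by
    set a := Multiplicative.toAdd (e0 w)
    set b := Multiplicative.toAdd (e1 w)
    by_cases h : 0 < Int.gcd a b
    · obtain ⟨a', b', h1, h2, h3⟩ := Int.exists_gcd_one h
      refine ⟨b', -a', ?_, ?_⟩
      · rw [IsCoprime.neg_right_iff]
        exact (Int.isCoprime_iff_gcd_eq_one.2 h1).symm
      · linear_combination b' * h2 - a' * h3
    · have : Int.gcd a b = 0 := by omega
      rw [Int.gcd_eq_zero_iff] at this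
      refine ⟨1, 0, isCoprime_one_left, ?_⟩
      rw [this.1, this.2]; ring
  obtain ⟨u, v, huv⟩ := hpq
  refine ⟨e0 ^ p * e1 ^ q, (FreeGroup.of i0) ^ u * (FreeGroup.of i1) ^ v, ?_, ?_⟩
  · apply Multiplicative.toAdd.injective
    simp only [MonoidHom.mul_apply, MonoidHom.zpow_apply, map_mul, map_zpow, toAdd_mul, toAdd_zpow]
    have a1 : e0 (FreeGroup.of i0) = Multiplicative.ofAdd 1 := by simp [e0]
    have a2 : e0 (FreeGroup.of i1) = 1 := by simp [e0, h01.symm]
    have a3 : e1 (FreeGroup.of i0) = 1 := by simp [e1, h01]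
    have a4 : e1 (FreeGroup.of i1) = Multiplicative.ofAdd 1 := by simp [e1]
    rw [a1, a2, a3, a4]
    simp only [toAdd_ofAdd, toAdd_one, smul_eq_mul]
    linarith
  · rw [MonoidHom.mem_ker]
    apply Multiplicative.toAdd.injective
    simp only [MonoidHom.mul_apply, MonoidHom.zpow_apply, toAdd_mul, toAdd_zpow, toAdd_one,
      smul_eq_mul]
    exact hw

theorem coeff_isIntegral (hr : 2 ≤ r) (χ : G → ℂ) (hχ : IsIrrChar χ) :
    IsIntegral ℤ (coeff w G χ) := by
  classical
  have : Fintype G := Fintype.ofFinite G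
  obtain ⟨n, ρ, hρ, rfl⟩ := hχ
  obtain ⟨δ, t, ht, hw⟩ := exists_delta w hr
  rw [coeff_eq]
  have : Fintype (FreeGroup (Fin r) →* G) := Fintype.ofEquiv _ FreeGroup.lift
  obtain ⟨α, hα, hsum⟩ := HomCount.sum_hom (H := G) ht w hw
    (fun g => (starRingEnd ℂ) (ρ.character g))
    (fun c h => by rw [Representation.char_conj])
    (fun h => by
      have h1 := character_isIntegral ρ h
      exact h1.map ((starRingEnd ℂ).toIntAlgHom))
  have h2 : ∑ x : Fin r → G, (starRingEnd ℂ) (ρ.character (FreeGroup.lift x w)) =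
      ∑ φ : FreeGroup (Fin r) →* G, (starRingEnd ℂ) (ρ.character (φ w)) :=
    Fintype.sum_equiv FreeGroup.lift _ _ (fun x => rfl)
  rw [h2, hsum, ← mul_assoc, inv_mul_cancel₀ (by exact_mod_cast Nat.card_pos.ne'), one_mul]
  exact hα

end

/-- inflation of irreducible characters -/
theorem isIrrChar_inflate {G : Type} [Group G] (N : Subgroup G) [N.Normal] {ψ : G ⧸ N → ℂ}
    (hψ : IsIrrChar ψ) : IsIrrChar (fun g : G => ψ (QuotientGroup.mk g)) := by
  obtain ⟨n, ρ, hρ, rfl⟩ := hψ
  refine ⟨n, ρ.comp (QuotientGroup.mk' N), ?_, rfl⟩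
  have hmk : ∀ q : G ⧸ N, ∃ g : G, QuotientGroup.mk' N g = q := QuotientGroup.mk'_surjective N
  let f : Subrepresentation ρ ≃o Subrepresentation (ρ.comp (QuotientGroup.mk' N)) :=
    { toFun := fun U => ⟨U.toSubmodule, fun g v hv => U.apply_mem_toSubmodule _ hv⟩
      invFun := fun U => ⟨U.toSubmodule, fun q v hv => by
        obtain ⟨g, rfl⟩ := hmk q
        exact U.apply_mem_toSubmodule g hv⟩
      left_inv := fun U => rfl
      right_inv := fun U => rfl
      map_rel_iff' := Iff.rfl }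
  exact (OrderIso.isSimpleOrder_iff f).1 hρ

/-- Quotients of semi-rational groups are semi-rational. -/
theorem result : ∀ (G : Type) [Group G] [Finite G] (N : Subgroup G) [N.Normal],
    SemiRational G → SemiRational (G ⧸ N) := by
  intro G _ _ N _ hG r hr w ψ hψ
  obtain ⟨n, hn⟩ := hG r hr w _ (isIrrChar_inflate N hψ)
  have h1 := coeff_quot w N ψ
  rw [hn] at h1
  have hN : (Nat.card N : ℂ) ≠ 0 := by exact_mod_cast Nat.card_pos.ne'
  obtain ⟨s, rfl⟩ : ∃ s, r = s + 1 := ⟨r - 1, by omega⟩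
  have h2 : (n : ℂ) = (Nat.card N : ℂ) ^ s * coeff w (G ⧸ N) ψ := by
    have : ((n : ℂ) - (Nat.card N : ℂ) ^ s * coeff w (G ⧸ N) ψ) * Nat.card N = 0 := by
      rw [sub_mul, h1]; ring
    rcases mul_eq_zero.1 this with h | h
    · exact sub_eq_zero.1 h
    · exact absurd h hN
  rcases Nat.eq_zero_or_pos s with rfl | hs
  · exact ⟨n, by rw [h2]; simp⟩
  · have hint := coeff_isIntegral w (G := G ⧸ N) (by omega) ψ hψ
    have hq : coeff w (G ⧸ N) ψ = (((n : ℚ) / (Nat.card N : ℚ) ^ s : ℚ) : ℂ) := by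
      push_cast
      rw [h2]
      field_simp
    rw [hq] at hint ⊢
    obtain ⟨m, hm⟩ := exists_int_of_isIntegral hint
    exact ⟨m, by rw [hm]; simp⟩

end Pool.Agent.Results.MP_405423_al.QuotientSemiRational
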